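import Mathlib
import Pool.Agent.Lib.helper22.DG2

namespace Pool.Agent.Results.MP_24b811_al.NotDG

open Set unitInterval Pool.Agent.Lib.DG
open scoped commutatorElement

/-- finitely many dyadic breakpoints, slopes powers of two -/
def Dy (f : I ≃o I) : Prop := ∃ B : Finset ℝ, (∀ x ∈ B, ∃ (m : ℤ) (k : ℕ), x = m / 2 ^ k) ∧
  ∀ a b : I, (∀ x ∈ B, x ∉ Ioo (a : ℝ) b) → ∃ (k : ℤ) (c : ℝ), ∀ x ∈ Icc a b, (f x : ℝ) = 2 ^ k * x + c

theorem ap (f g : I ≃o I) (x : I) : (f * g) x = f (g x) := rfl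

noncomputable def χ (f : ℤ → ZMod 2) : (ℤ →₀ ℤ) →ₗ[ℤ] ZMod 2 := Finsupp.linearCombination ℤ f

theorem sh (f : ℤ → ZMod 2) (l : ℤ) (n : ℤ →₀ ℤ) : χ f (n.equivMapDomain (.subRight l)) = χ (fun i => f (i - l)) n := by
  rw [χ, Finsupp.equivMapDomain_eq_mapDomain, Finsupp.linearCombination_mapDomain]; rfl

theorem sh' (l : ℤ) {n : ℤ →₀ ℤ} (h : χ 1 n = 0) : χ Int.cast (n.equivMapDomain (.subRight l)) = χ Int.cast n := by
  have : ∀ n, χ (fun i => ((i - l : ℤ) : ZMod 2)) n = χ Int.cast n - l * χ 1 n := fun n => by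
    induction n using Finsupp.induction_linear with
    | zero => simp
    | add _ _ i j => simp only [map_add, i, j]; ring
    | single => simp [χ]; ring
  rw [sh, this, h, mul_zero, sub_zero]

theorem main {t a : I ≃o I} {y z : I} (h1 : y < t y) (h2 : ∀ x, x ∉ Ioo y (t y) → a x = x) (h3 : a z < z) :
    ∃ x : Subgroup.closure {t, a * a, ⁅t, a⁆}, x ∉ commutator _ ∧ x ^ 2 ∈ commutator _ := by
  have up : ∀ (f : I ≃o I) x, x < f x → ∀ d : ℤ, 0 < d → f x ≤ (f ^ d) x := fun f x h d k => by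
    induction d, (k : 1 ≤ d) using Int.leInduction with
    | base => simp
    | succ d k ih => rw [zpow_add_one, ap]; exact ih.trans ((f ^ d).monotone h.le)
  have o1 : ∀ d : ℤ, 0 < d → ∀ x ∈ Ioo y (t y), (t ^ d) x ∉ Ioo y (t y) := fun d k x i j =>
    ((up t y h1 d k).trans_lt ((t ^ d).strictMono i.1)).not_gt j.2
  have ou : ∀ d : ℤ, ∀ x ∈ Ioo y (t y), (t ^ d) x ∈ Ioo y (t y) → d = 0 := fun d x i j => by
    rcases lt_trichotomy d 0 with k | k | k
    exacts [(o1 (-d) (by omega) _ j (by simpa [← ap] using i)).elim, k, (o1 d k x i j).elim]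
  have fx : ∀ (n : ℤ) x, x ∉ Ioo y (t y) → (a ^ n) x = x := fun n x i => (MulAction.stabilizer (I ≃o I) x).zpow_mem (h2 x i) n
  have iv : ∀ (n : ℤ), ∀ x ∈ Ioo y (t y), (a ^ n) x ∈ Ioo y (t y) := fun n x i => by_contra fun j =>
    j (by rwa [(a ^ n).injective (fx n _ j)])
  have hz : z ∈ Ioo y (t y) := by_contra fun j => h3.ne (h2 z j)
  have pz : ∀ n : ℤ, (a ^ n) z = z → n = 0 := fun n i => by
    have u : z < a⁻¹ z := by simpa [← ap] using a⁻¹.strictMono h3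
    have : ∀ n : ℤ, 0 < n → (a ^ (-n)) z ≠ z := fun n k => by simpa using (u.trans_le (up _ z u n k)).ne'
    rcases lt_trichotomy n 0 with k | k | k
    exacts [(this (-n) (by omega) (by simpa using i)).elim, k, (this n k (by nth_rw 1 [← i]; simp)).elim]
  let Sp : (I ≃o I) → ℤ → (ℤ →₀ ℤ) → Prop := fun g k n => ∀ i : ℤ, ∀ x ∈ Ioo y (t y), g ((t ^ i) x) = (t ^ (i + k)) ((a ^ n i) x)
  have sm : ∀ {g h k l n m}, Sp g k n → Sp h l m → Sp (g * h) (l + k) (n.equivMapDomain (.subRight l) + m) := fun b c i x j => by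
    rw [ap, c i x j, b _ _ (iv _ x j), add_assoc, ← ap (a ^ _), ← zpow_add]; rfl
  have si : ∀ {g k n}, Sp g k n → Sp g⁻¹ (-k) (-n.equivMapDomain (.subRight (-k))) := fun {g k n} b i x j => g.injective (by
    rw [← ap, mul_inv_cancel, b _ _ (iv _ x j), ← ap (a ^ _), ← zpow_add]; simp)
  let S : Subgroup ((I ≃o I) × Multiplicative (ZMod 2)) := {
    carrier := {p | ∃ k n, Sp p.1 k n ∧ χ 1 n = 0 ∧ χ Int.cast n = p.2.toAdd}
    one_mem' := ⟨0, 0, by simp [Sp], by simp⟩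
    mul_mem' := fun ⟨_, _, b, c, d⟩ ⟨_, _, b', c', d'⟩ => ⟨_, _, sm b b', by rw [map_add, sh, c']; exact (add_zero _).trans c, by
      rw [map_add, sh' _ c, d, d']; rfl⟩
    inv_mem' := fun ⟨_, _, b, c, d⟩ => ⟨_, _, si b, by rw [map_neg, sh]; exact neg_eq_zero.2 c, by rw [map_neg, sh' _ c, d]; rfl⟩ }
  have st : Sp t 1 0 := fun i x _ => by rw [add_comm, zpow_one_add]; rfl
  have sa : Sp a 0 (.single 0 1) := fun i x j => by
    rcases eq_or_ne i 0 with rfl | k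
    · simp
    · simp [k, h2 _ fun l => k (ou i x j l)]
  have sx := sm (sm (sm st sa) (si st)) (si sa)
  have m : ∀ g ∈ ({t, a * a, ⁅t, a⁆} : Set _), g ∈ Subgroup.closure {t, a * a, ⁅t, a⁆} := Subgroup.subset_closure
  refine ⟨⟨_, m ⁅t, a⁆ (by simp)⟩, fun h => ?_, ?_⟩
  · have e : Subgroup.closure {t, a * a, ⁅t, a⁆} ≤ S.map (.fst ..) := (Subgroup.closure_le _).2 (by
      rintro _ (rfl | rfl | rfl)
      · exact ⟨(_, 1), ⟨_, _, st, by simp⟩, rfl⟩
      · exact ⟨(_, 1), ⟨_, _, sm sa sa, by simp [χ]; exact CharTwo.add_self_eq_zero 1, by simp [χ]⟩, rfl⟩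
      · exact ⟨(_, .ofAdd _), ⟨_, _, sx, by simp [χ]; exact CharTwo.add_self_eq_zero 1, rfl⟩, rfl⟩)
    obtain ⟨k, n, b, -, c⟩ : _ ∈ S.comap ((Subgroup.subtype _).prod 1) := Subgroup.commutator_le.2 (fun g _ h _ => by
      obtain ⟨⟨_, u⟩, i, rfl⟩ : ∃ p ∈ S, p.1 = g.1 := e g.2
      obtain ⟨⟨_, v⟩, j, rfl⟩ : ∃ p ∈ S, p.1 = h.1 := e h.2
      simpa [commutatorElement_def, mul_comm u v] using S.mul_mem (S.mul_mem (S.mul_mem i j) (S.inv_mem i)) (S.inv_mem j)) h
    have : n = .single 1 1 - .single 0 1 := Finsupp.ext fun i => by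
      have d := (b i z hz).symm.trans (sx i z hz)
      have e := ou k _ (iv (n i) z hz) (by
        rw [zpow_add, ap] at d
        simp only [neg_zero, zero_add, neg_add_cancel, add_zero, EmbeddingLike.apply_eq_iff_eq] at d
        exact d ▸ iv _ z hz)
      simp only [e, neg_zero, zero_add, neg_add_cancel, add_zero, EmbeddingLike.apply_eq_iff_eq] at d
      exact sub_eq_zero.1 (pz _ (by rw [sub_eq_neg_add, zpow_add, ap, d, ← ap, ← zpow_add]; simp [sub_eq_add_neg]))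
    simp [this, χ] at c
  · have c : Commute (t * a * t⁻¹) a := RelIso.ext fun x => by
      have : ∀ x ∈ Ioo y (t y), (t * a * t⁻¹) x = x := fun x i => by
        rw [ap, ap, h2 _ fun l => by simpa using ou (-1) x i (by simpa using l)]; simp
      have e : ∀ x ∈ Ioo y (t y), a x ∈ Ioo y (t y) := by simpa using iv 1
      rw [ap, ap a]
      by_cases i : x ∈ Ioo y (t y)
      · rw [this x i, this _ (e x i)]
      · rw [h2 x i, h2 _ fun j => i (by rwa [← (t * a * t⁻¹).injective (this _ j)])]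
    refine (congrArg (· ∈ _) (Subtype.ext ?_)).mp (Subgroup.commutator_mem_commutator (g₁ := ⟨t, m t (by simp)⟩) (g₂ := ⟨a * a, m _ (by simp)⟩)
      (Subgroup.mem_top _) (Subgroup.mem_top _))
    simp only [commutatorElement_def, Subgroup.coe_pow, Subgroup.coe_mul, Subgroup.coe_inv]
    rw [c.inv_right.mul_pow]
    simp [pow_two, mul_assoc]

noncomputable def mk (f g : ℝ → ℝ) (h : StrictMono f) (k : ∀ x, f (g x) = x) (h0 : f 0 = 0) (h1 : f 1 = 1) : I ≃o I :=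
  StrictMono.orderIsoOfSurjective (fun x => ⟨f x, h0 ▸ h.monotone x.2.1, h1 ▸ h.monotone x.2.2⟩) (fun _ _ a => h a) fun x =>
    ⟨⟨g x, h.le_iff_le.1 (by rw [h0, k]; exact x.2.1), h.le_iff_le.1 (by rw [h1, k]; exact x.2.2)⟩, Subtype.ext (k x)⟩

noncomputable def t : I ≃o I := mk (fun x => min (2 * x) (min (x + 1 / 4) (x / 2 + 1 / 2))) (fun x => max (x / 2) (max (x - 1 / 4) (2 * x - 1)))
  (fun _ _ _ => by grind) (fun _ => by grind) (by grind) (by grind)

noncomputable def a : I ≃o I := mk (fun x => min x (max (x / 2 + 1 / 8) (max (x - 1 / 16) (2 * x - 1 / 2))))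
  (fun x => max x (min (2 * x - 1 / 4) (min (x + 1 / 16) (x / 2 + 1 / 4)))) (fun _ _ _ => by grind) (fun _ => by grind) (by grind) (by grind)

theorem t_ap (x : I) : (t x : ℝ) = min (2 * x : ℝ) (min (x + 1 / 4) (x / 2 + 1 / 2)) := rfl
theorem a_ap (x : I) : (a x : ℝ) = min (x : ℝ) (max (x / 2 + 1 / 8) (max (x - 1 / 16) (2 * x - 1 / 2))) := rfl

theorem dy_t : Dy t := by
  refine ⟨{1 / 4, 1 / 2}, by
    simp only [Finset.mem_insert, Finset.mem_singleton]
    rintro _ (rfl | rfl)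
    exacts [⟨1, 2, by norm_num⟩, ⟨1, 1, by norm_num⟩], fun p q h => ?_⟩
  simp only [Finset.mem_insert, Finset.mem_singleton, forall_eq_or_imp, forall_eq, mem_Ioo, mem_Icc, t_ap, ← Subtype.coe_le_coe] at h ⊢
  by_cases i : (q : ℝ) ≤ 1 / 4
  · exact ⟨1, 0, fun x j => by simp only [zpow_one, zpow_zero, zpow_neg_one]; grind⟩
  by_cases i : (q : ℝ) ≤ 1 / 2
  · exact ⟨0, 1 / 4, fun x j => by simp only [zpow_one, zpow_zero, zpow_neg_one]; grind⟩
  · exact ⟨-1, 1 / 2, fun x j => by simp only [zpow_one, zpow_zero, zpow_neg_one]; grind⟩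

theorem dy_a : Dy a := by
  refine ⟨{1 / 4, 3 / 8, 7 / 16, 1 / 2}, by
    simp only [Finset.mem_insert, Finset.mem_singleton]
    rintro _ (rfl | rfl | rfl | rfl)
    exacts [⟨1, 2, by norm_num⟩, ⟨3, 3, by norm_num⟩, ⟨7, 4, by norm_num⟩, ⟨1, 1, by norm_num⟩], fun p q h => ?_⟩
  simp only [Finset.mem_insert, Finset.mem_singleton, forall_eq_or_imp, forall_eq, mem_Ioo, mem_Icc, a_ap, ← Subtype.coe_le_coe] at h ⊢
  by_cases i : (q : ℝ) ≤ 1 / 4
  · exact ⟨0, 0, fun x j => by simp only [zpow_one, zpow_zero, zpow_neg_one]; grind⟩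
  by_cases i : (q : ℝ) ≤ 3 / 8
  · exact ⟨-1, 1 / 8, fun x j => by simp only [zpow_one, zpow_zero, zpow_neg_one]; grind⟩
  by_cases i : (q : ℝ) ≤ 7 / 16
  · exact ⟨0, -1 / 16, fun x j => by simp only [zpow_one, zpow_zero, zpow_neg_one]; grind⟩
  by_cases i : (q : ℝ) ≤ 1 / 2
  · exact ⟨1, -1 / 2, fun x j => by simp only [zpow_one, zpow_zero, zpow_neg_one]; grind⟩
  · exact ⟨0, 0, fun x j => by simp only [zpow_one, zpow_zero, zpow_neg_one]; grind⟩

theorem result : ∃ H : Subgroup (I ≃o I), H ≤ Subgroup.closure {f | Dy f} ∧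
    ∀ (S : Type) (R : Set (List S × List S)) (w : List S), IsEmpty (H ≃* D R w) := by
  have ht : t ∈ Subgroup.closure {f | Dy f} := Subgroup.subset_closure dy_t
  have ha : a ∈ Subgroup.closure {f | Dy f} := Subgroup.subset_closure dy_a
  obtain ⟨x, h, k⟩ := main (t := t) (a := a) (y := ⟨1 / 4, by norm_num, by norm_num⟩) (z := ⟨3 / 8, by norm_num, by norm_num⟩)
    (by rw [← Subtype.coe_lt_coe, t_ap]; norm_num) (fun x h => Subtype.ext (by
      simp only [mem_Ioo, ← Subtype.coe_lt_coe, t_ap, a_ap] at h ⊢; grind)) (by rw [← Subtype.coe_lt_coe, a_ap]; norm_num)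
  have m : ∀ {G G' : Type} [Group G] [Group G'] (φ : G →* G') x, x ∈ commutator G → φ x ∈ commutator G' := fun φ x h =>
    (QuotientGroup.eq_one_iff _).1 (Abelianization.commutator_subset_ker (Abelianization.of.comp φ) h)
  refine ⟨_, (Subgroup.closure_le _).2 ?_, fun S R w => ⟨fun e => h (by
    simpa using m (G := D R w) e.symm.toMonoidHom _ (tf (g := e x) two_ne_zero (map_pow e x 2 ▸ m (G' := D R w) e.toMonoidHom _ k)))⟩⟩
  rintro _ (rfl | rfl | rfl)
  exacts [ht, mul_mem ha ha, mul_mem (mul_mem (mul_mem ht ha) (inv_mem ht)) (inv_mem ha)]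

end Pool.Agent.Results.MP_24b811_al.NotDG
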